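import Mathlib
import Pool.Agent.K9h59.MD.E

/-!
The least `K` such that every irrational number has a multiple `m α`, `1 ≤ m ≤ K`, with the decimal
digit `d` infinitely often; gaps for algebraic numbers.
-/

set_option autoImplicit false

namespace Pool.Agent.Results.MP_175f55_nt.MultiplesExactConstants

open Pool.Agent.K9h59.MD

/-- the `j`-th decimal digit of `y` (`j ≥ 1`) -/
noncomputable def digit (y : ℝ) (j : ℕ) : ℤ := ⌊y * 10 ^ j⌋ % 10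

/-- the constants for the digits `0, …, 9` -/
def K : Fin 10 → ℕ := ![72, 32, 35, 24, 32, 32, 24, 35, 32, 72]

lemma cert (d : Fin 10) : ∃ (cyc : List (List ℕ)) (T : Tr), Valid 10 (10 ^ (1 - 1)) d (K d) cyc T := by
  fin_cases d
  · exact ⟨C0, T0, V0⟩
  · exact ⟨C1, T1, V1⟩
  · exact ⟨C2, T2, V2⟩
  · exact ⟨C3, T3, V3⟩
  · exact ⟨C4, T4, V4⟩
  · exact ⟨C5, T5, V5⟩
  · exact ⟨C6, T6, V6⟩
  · exact ⟨C7, T7, V7⟩
  · exact ⟨C8, T8, V8⟩
  · exact ⟨C9, T9, V9⟩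

lemma low_cert (d : Fin 10) : ∃ l U V : ℕ, 0 < l ∧ U < 10 ^ l ∧ V < 10 ^ l ∧ (U + 2 ≤ V ∨ V + 2 ≤ U) ∧
    lowchk 10 l d (K d) U V = true := by
  fin_cases d
  · exact ⟨4, 9999, 9874, by decide +kernel⟩
  · exact ⟨3, 999, 974, by decide +kernel⟩
  · exact ⟨2, 99, 97, by decide +kernel⟩
  · exact ⟨3, 999, 974, by decide +kernel⟩
  · exact ⟨4, 0, 125, by decide +kernel⟩
  · exact ⟨4, 9999, 9874, by decide +kernel⟩
  · exact ⟨3, 0, 25, by decide +kernel⟩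
  · exact ⟨2, 0, 2, by decide +kernel⟩
  · exact ⟨3, 0, 25, by decide +kernel⟩
  · exact ⟨4, 0, 125, by decide +kernel⟩

lemma not_free {d : Fin 10} {M : ℕ} {α : ℝ} {n : ℕ} (h : ¬ Free 10 1 d M α n) :
    ∃ m : ℕ, 1 ≤ m ∧ m ≤ M ∧ digit (m * α) (n + 1) = (d : ℕ) := by
  unfold Free at h
  push Not at h
  obtain ⟨m, h1, h2, h3⟩ := h
  refine ⟨m, h1, h2, ?_⟩
  unfold digit
  simpa using h3

/-- (1) For every digit `d` and every irrational `α` the digit `d` stands infinitely often in the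
decimal expansion of one of the numbers `m α`, `1 ≤ m ≤ K d`.
(2) Here `K d` cannot be replaced by a smaller number: for every digit `d` there are uncountably many
irrational `α` such that `d` never stands in `m α` for `1 ≤ m < K d`.
(3) If `α` is algebraic and irrational (for example `α = √2`) and `ε > 0`, then for all large `n` the
digit `d` stands in one of the numbers `m α`, `1 ≤ m ≤ K d`, at a place `j` with `n < j ≤ (1 + ε) n`. -/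
theorem result :
    (∀ d : Fin 10, ∀ α : ℝ, Irrational α →
      ∃ m : ℕ, 1 ≤ m ∧ m ≤ K d ∧ {j : ℕ | digit (m * α) j = (d : ℕ)}.Infinite) ∧
    (∀ d : Fin 10, ¬ {α : ℝ | Irrational α ∧ ∀ m : ℕ, 1 ≤ m → m < K d →
      ∀ j : ℕ, 1 ≤ j → digit (m * α) j ≠ (d : ℕ)}.Countable) ∧
    (∀ d : Fin 10, ∀ α : ℝ, IsAlgebraic ℚ α → Irrational α → ∀ ε : ℝ, 0 < ε →
      ∃ n₀ : ℕ, ∀ n : ℕ, n₀ ≤ n → ∃ m : ℕ, 1 ≤ m ∧ m ≤ K d ∧ ∃ j : ℕ, n < j ∧
        (j : ℝ) ≤ (1 + ε) * n ∧ digit (m * α) j = (d : ℕ)) ∧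
    (∀ d : Fin 10, ∀ ε : ℝ, 0 < ε → ∃ n₀ : ℕ, ∀ n : ℕ, n₀ ≤ n → ∃ m : ℕ, 1 ≤ m ∧ m ≤ K d ∧
      ∃ j : ℕ, n < j ∧ (j : ℝ) ≤ (1 + ε) * n ∧ digit (m * √2) j = (d : ℕ)) := by
  have key : ∀ d : Fin 10, ∀ α : ℝ, IsAlgebraic ℚ α → Irrational α → ∀ ε : ℝ, 0 < ε →
      ∃ n₀ : ℕ, ∀ n : ℕ, n₀ ≤ n → ∃ m : ℕ, 1 ≤ m ∧ m ≤ K d ∧ ∃ j : ℕ, n < j ∧
        (j : ℝ) ≤ (1 + ε) * n ∧ digit (m * α) j = (d : ℕ) := by
    intro d α halg hα ε hε
    obtain ⟨cyc, T, hV⟩ := cert d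
    obtain ⟨n₀, h⟩ := gap_alg 10 1 d (K d) (by norm_num) le_rfl cyc T hV α halg hα ε hε
    refine ⟨n₀, fun n hn => ?_⟩
    obtain ⟨i, hi, hi2, hf⟩ := h n hn
    obtain ⟨m, h1, h2, h3⟩ := not_free hf
    exact ⟨m, h1, h2, i + 1, by omega, by push_cast; exact hi2, h3⟩
  refine ⟨fun d α hα => ?_, fun d => ?_, key, fun d ε hε => ?_⟩
  · obtain ⟨cyc, T, hV⟩ := cert d
    by_contra hcon
    push Not at hcon
    have hfin : ∀ m : ℕ, 1 ≤ m → m ≤ K d → {j : ℕ | digit (m * α) j = (d : ℕ)}.Finite :=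
      fun m h1 h2 => hcon m h1 h2
    have hU : (⋃ m ∈ Set.Icc 1 (K d), {j : ℕ | digit (m * α) j = (d : ℕ)}).Finite :=
      Set.Finite.biUnion (Set.finite_Icc _ _) (fun m hm => hfin m hm.1 hm.2)
    obtain ⟨n₀, hn₀⟩ := hU.bddAbove
    obtain ⟨n, hn, hf⟩ := exists_occ 10 1 d (K d) (by norm_num) le_rfl cyc T hV α hα n₀
    obtain ⟨m, h1, h2, h3⟩ := not_free hf
    have h4 : n + 1 ≤ n₀ := hn₀ (by
      simp only [Set.mem_iUnion]
      exact ⟨m, ⟨h1, h2⟩, h3⟩)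
    omega
  · obtain ⟨l, U, V, hl, hU, hV, hUV, hc⟩ := low_cert d
    have := low_uncountable 10 l d (K d) (by norm_num) hl U V hU hV hUV hc
    unfold digit
    simpa only [Nat.cast_ofNat] using this
  · refine key d (√2) ?_ irrational_sqrt_two ε hε
    refine ⟨Polynomial.X ^ 2 - Polynomial.C 2, Polynomial.X_pow_sub_C_ne_zero (by norm_num) _, ?_⟩
    rw [map_sub, map_pow, Polynomial.aeval_X, Polynomial.aeval_C, Real.sq_sqrt (by norm_num)]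
    norm_num

end Pool.Agent.Results.MP_175f55_nt.MultiplesExactConstants
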