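import Mathlib
import Pool.Agent.K9h10.AL.PD

set_option autoImplicit false

/-!
# The multiples `a √2` by the integers `a` with prescribed numbers of digits
-/

namespace Pool.Agent.Results.MP_175f55_nt.PrescribedDigitCounts

open Finset

/-- the words of length `N` over `{0, …, b - 1}` in which every letter `c` occurs `κ c` times -/
def Words {b : ℕ} (N : ℕ) (κ : Fin b → ℕ) : Finset (Fin N → Fin b) :=
  univ.filter fun a => ∀ c, (univ.filter fun i => a i = c).card = κ c

/-- the integer with the base `b` digits `a (N - 1), …, a 1, a 0` (most significant digit first) -/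
def value {b N : ℕ} (a : Fin N → Fin b) : ℕ := ∑ i, (a i : ℕ) * b ^ (i : ℕ)

/-- Let `α` be a real algebraic irrational number (for instance `α = √2`), `b ≥ 2`,
`0 ≤ s ≤ t ≤ 1` and `ε > 0`. There is `K` such that for all real `y`, all `N ≥ 16` and all digit
counts `κ` with sum `N` for which `N - κ c ≥ K N (log log N) ^ 5 / (log N) ^ 3` for every digit `c`,
the proportion of the integers `a` with `N` base `b` digits, `κ c` of them equal to `c` for every `c`,
for which the fractional part of `y + α a` lies in `[s, t)`, differs from `t - s` by at most `ε`. -/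
theorem result (b : ℕ) (hb : 2 ≤ b) (α : ℝ) (hα : IsAlgebraic ℚ α) (hirr : Irrational α)
    (s t : ℝ) (hs : 0 ≤ s) (hst : s ≤ t) (ht : t ≤ 1) (ε : ℝ) (hε : 0 < ε) :
    ∃ K : ℝ, ∀ (y : ℝ) (N : ℕ), 16 ≤ N → ∀ κ : Fin b → ℕ, ∑ c, κ c = N →
      (∀ c, K * (N * (Real.log (Real.log N) ^ 5 / Real.log N ^ 3)) ≤ (N : ℝ) - κ c) →
      |((((Words N κ).filter fun a => s ≤ Int.fract (y + α * value a) ∧
          Int.fract (y + α * value a) < t).card : ℕ) : ℝ) - (t - s) * (Words N κ).card| ≤
        ε * (Words N κ).card := by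
  obtain ⟨K, hK⟩ := Pool.Agent.K9h10.AL.main_alg hb hα hirr s t hs hst ht ε hε
  refine ⟨K, fun y N hN κ hκ hc => ?_⟩
  have hv : ∀ a : Fin N → Fin b, Pool.Agent.K9h10.PD.vl a = (value a : ℝ) := by
    intro a
    unfold Pool.Agent.K9h10.PD.vl value
    push_cast
    rfl
  have hNR : (16 : ℝ) ≤ N := by exact_mod_cast hN
  have hlog : 1 < Real.log N := by
    have h1 : Real.exp 1 < N := by
      have := Real.exp_one_lt_d9
      linarith
    exact (Real.lt_log_iff_exp_lt (by linarith)).2 h1
  have hll : 0 < Real.log (Real.log N) := Real.log_pos hlog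
  have hl3 : (0 : ℝ) < Real.log N ^ 3 := by positivity
  have hl5 : (0 : ℝ) < Real.log (Real.log N) ^ 5 := by positivity
  have h := hK y N (by omega) κ hκ (fun c => by
    have h1 := hc c
    unfold Pool.Agent.K9h10.AL.gw
    have h2 : K * (N * (Real.log (Real.log N) ^ 5 / Real.log N ^ 3)) *
        (Real.log N ^ 3 / Real.log (Real.log N) ^ 5) = K * N := by
      field_simp
    rw [← h2]
    exact mul_le_mul_of_nonneg_right h1 (by positivity))
  simp_rw [hv] at h
  exact h

end Pool.Agent.Results.MP_175f55_nt.PrescribedDigitCounts
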