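import Mathlib
import Pool.Agent.K9h10.AL.Alg

set_option autoImplicit false

/-!
# Multiples of algebraic numbers by random sparse numbers are normal
-/

namespace Pool.Agent.Results.MP_175f55_nt.RandomSparseMultiples

open MeasureTheory ProbabilityTheory Filter Topology

/-- every word of `k ≥ 1` digits has frequency `b ^ (-k)` in the base `b` expansion of `x` -/
def NormalTo (b : ℕ) (x : ℝ) : Prop :=
  ∀ k : ℕ, 0 < k → ∀ w : Fin k → Fin b,
    Tendsto
      (fun n : ℕ =>
        ((((Finset.range n).filter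
            (fun i : ℕ => ∀ j : Fin k,
              ⌊x * (b : ℝ) ^ (i + 1 + (j : ℕ))⌋ % (b : ℤ) = (((w j : ℕ)) : ℤ))).card : ℝ)
          / (n : ℝ)))
      atTop (𝓝 ((1 : ℝ) / (b : ℝ) ^ k))

/-- Let `X 0, X 1, …` be independent random integers, bounded by `K`, such that
`P(X i ≠ a i) (log i) ^ 3 / (log log i) ^ 5 → ∞` for every sequence of integers `a i` (for instance
`0` or `1` with `P(X i = 1) = (log i) ^ (- 2.99)`), and let `Y` be a countable set of real numbers.
Almost surely, for all `b ≥ 2`, all `y` in `Y` and all algebraic irrational real numbers `α` (such as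
`√2`) the number `y + α ∑ X i b ^ (-i)` is normal in base `b`. -/
theorem result {Ω : Type*} [MeasurableSpace Ω] (P : Measure Ω) [IsProbabilityMeasure P]
    (X : ℕ → Ω → ℤ) (hX : ∀ i, Measurable (X i)) (hI : iIndepFun X P)
    (K : ℕ) (hK : ∀ i ω, |X i ω| ≤ (K : ℤ))
    (hv : ∀ a : ℕ → ℤ, Tendsto (fun i : ℕ => P.real {ω | X i ω ≠ a i} *
      (Real.log i ^ 3 / Real.log (Real.log i) ^ 5)) atTop atTop)
    (Y : Set ℝ) (hY : Y.Countable) :
    ∀ᵐ ω ∂P, ∀ b : ℕ, 2 ≤ b → ∀ y ∈ Y, ∀ α : ℝ, Irrational α → IsAlgebraic ℚ α →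
      NormalTo b (y + α * ∑' i, (X i ω : ℝ) / (b : ℝ) ^ i) := by
  have hcount : {α : ℝ | IsAlgebraic ℚ α}.Countable := Algebraic.countable ℚ ℝ
  rw [ae_all_iff]
  intro b
  by_cases hb : 2 ≤ b
  swap
  · exact Eventually.of_forall fun ω h => absurd h hb
  have h1 : ∀ᵐ ω ∂P, ∀ y ∈ Y, ∀ α ∈ {α : ℝ | IsAlgebraic ℚ α}, Irrational α →
      NormalTo b (y + α * ∑' i, (X i ω : ℝ) / (b : ℝ) ^ i) := by
    rw [ae_ball_iff hY]
    intro y _
    rw [ae_ball_iff hcount]
    intro α hα
    by_cases hirr : Irrational α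
    · have h2 := Pool.Agent.K9h10.AL.normal_alg (P := P) hb hα hirr y hX hI K hK hv
      filter_upwards [h2] with ω hω _
      exact hω
    · exact Eventually.of_forall fun ω h => absurd h hirr
  filter_upwards [h1] with ω hω _ y hy α hirr hα
  exact hω y hy α hα hirr

end Pool.Agent.Results.MP_175f55_nt.RandomSparseMultiples
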