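import Mathlib
import Pool.Agent.K9h10.PD.QwPi

set_option autoImplicit false

/-!
# The multiples of `m q ^ n √2`, for almost all `n`, by the integers with very few nonzero digits
-/

namespace Pool.Agent.Results.MP_175f55_nt.SparseMultiplesOfPowers

open Finset

/-- the words of length `N` over `{0, …, b - 1}` in which every letter `c` occurs `κ c` times -/
def Words {b : ℕ} (N : ℕ) (κ : Fin b → ℕ) : Finset (Fin N → Fin b) :=
  univ.filter fun a => ∀ c, (univ.filter fun i => a i = c).card = κ c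

/-- the integer with the base `b` digits `a (N - 1), …, a 1, a 0` (most significant digit first) -/
def value {b N : ℕ} (a : Fin N → Fin b) : ℕ := ∑ i, (a i : ℕ) * b ^ (i : ℕ)

/-- Let `b, q ≥ 2`, where `b` and `q` are coprime or `b = q v` with `v ≥ 2` coprime to `q` (for
`b = 10` the number `q` may be `2`, `5` or any number coprime to `10`), and let `α` be a real algebraic
irrational number. For all `C, ε, δ, η > 0`, all `R`, `0 ≤ s ≤ t ≤ 1`, all large `M`, all `J` and all
`m ≥ 1` the following holds for all but at most `δ M` of the numbers `n` with `J ≤ n < J + M`. For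
all `u ≤ R (J + M)`, all real `y`, all `N ≥ C (u + n log_b q) + (1 + C / 2) log_b m` and all digit
counts `κ` with sum `N` for which `N - κ c ≥ N M ^ (η - 1)` for every digit `c`, the proportion of the
integers `a` with `N` base `b` digits, `κ c` of them equal to `c` for every `c`, for which the
fractional part of `y + b ^ u m q ^ n α a` lies in `[s, t)`, differs from `t - s` by at most `ε`. For
`α = √2`, `q = 2` the numbers `q ^ n α` are the odd powers of `√2`. -/
theorem result (b q : ℕ) (hb : 2 ≤ b) (hq : 2 ≤ q)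
    (hbq : Nat.Coprime b q ∨ ∃ v : ℕ, 2 ≤ v ∧ Nat.Coprime q v ∧ b = q * v) (α : ℝ)
    (hα : IsAlgebraic ℚ α) (hirr : Irrational α) (C : ℝ) (hC : 0 < C) (R : ℕ) (s t : ℝ) (hs : 0 ≤ s)
    (hst : s ≤ t) (ht : t ≤ 1) (ε δ η : ℝ) (hε : 0 < ε) (hδ : 0 < δ) (hη : 0 < η) :
    ∃ M₀ : ℕ, ∀ M J m : ℕ, M₀ ≤ M → 1 ≤ m →
      ∃ B : Finset ℕ, B ⊆ Ico J (J + M) ∧ (B.card : ℝ) ≤ δ * M ∧
        ∀ n : ℕ, J ≤ n → n < J + M → n ∉ B → ∀ u ≤ R * (J + M),
          ∀ (y : ℝ) (N : ℕ) (κ : Fin b → ℕ),
            C * (u + n * Real.logb b q) + (1 + C / 2) * Real.logb b m ≤ N → ∑ c, κ c = N →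
            (∀ c, N * (M : ℝ) ^ (η - 1) ≤ (N : ℝ) - κ c) →
            |((((Words N κ).filter fun a =>
                s ≤ Int.fract (y + (b : ℝ) ^ u * (m * (q : ℝ) ^ n * α) * value a) ∧
                Int.fract (y + (b : ℝ) ^ u * (m * (q : ℝ) ^ n * α) * value a) < t).card : ℕ) : ℝ)
                - (t - s) * (Words N κ).card| ≤ ε * (Words N κ).card := by
  obtain ⟨M₀, hM₀⟩ := Pool.Agent.K9h10.PD.words_of_alg hb hq hbq hα hirr hC R s t hs hst ht
    ε δ η hε hδ hη
  refine ⟨M₀, fun M J m hM hm1 => ?_⟩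
  obtain ⟨B, hB1, hB2, hB3⟩ := hM₀ M J m hM hm1
  refine ⟨B.image fun n => J + n, ?_, ?_, ?_⟩
  · intro n hn
    rw [mem_image] at hn
    obtain ⟨l, hl, rfl⟩ := hn
    have := mem_range.1 (hB1 hl)
    rw [mem_Ico]
    omega
  · exact le_trans (Nat.cast_le.2 card_image_le) hB2
  · intro n hn1 hn2 hnB u hu y N κ hN hκ hc
    obtain ⟨l, rfl⟩ := Nat.exists_eq_add_of_le hn1
    have hlB : l ∉ B := fun h => hnB (mem_image.2 ⟨l, h, rfl⟩)
    have hlen : C * (u + ((J + l : ℕ) : ℝ) * Real.log q / Real.log b) +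
        (1 + C / 2) * (Real.log m / Real.log b) ≤ N := by
      rw [Real.logb, Real.logb, ← mul_div_assoc] at hN
      exact hN
    have h := hB3 l (by omega) hlB u hu y N κ hlen hκ hc
    have hv : ∀ a : Fin N → Fin b, Pool.Agent.K9h10.PD.vl a = (value a : ℝ) := by
      intro a
      unfold Pool.Agent.K9h10.PD.vl value
      push_cast
      rfl
    simp_rw [hv] at h
    exact h

end Pool.Agent.Results.MP_175f55_nt.SparseMultiplesOfPowers
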